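import Mathlib

set_option autoImplicit false

/-!
# MP_31821e_co, Q1: the retractions of a (bounded) lattice need not form a lattice
-/

namespace Pool.Agent.Results.MP_31821e_co.BoundedChain

universe u

/-- The retractions of `L`: the order-preserving idempotent maps `L → L`, ordered pointwise. -/
abbrev Retr (L : Type u) [Lattice L] : Type u := {r : L → L // Monotone r ∧ ∀ x, r (r x) = r x}

/-- The chain `ω + ω*`: a copy of `ℕ` below a copy of `ℕ` with the reversed order. -/
abbrev C : Type := ℕ ⊕ₗ ℕᵒᵈ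

/-- the left copy -/
abbrev lo (n : ℕ) : C := toLex (Sum.inl n)

/-- the right copy -/
abbrev hi (n : ℕ) : C := toLex (Sum.inr (OrderDual.toDual n))

lemma lo_le_lo {m n : ℕ} : lo m ≤ lo n ↔ m ≤ n := Sum.Lex.inl_le_inl_iff

lemma hi_le_hi {m n : ℕ} : hi m ≤ hi n ↔ n ≤ m := by
  rw [Sum.Lex.inr_le_inr_iff]
  exact OrderDual.toDual_le_toDual

lemma lo_le_hi {m n : ℕ} : lo m ≤ hi n := Sum.Lex.inl_le_inr _ _

lemma cases (x : C) : (∃ n, x = lo n) ∨ ∃ n, x = hi n := by
  rcases h : ofLex x with n | n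
  · left; exact ⟨n, by rw [lo, ← h]; rfl⟩
  · right; exact ⟨OrderDual.ofDual n, by rw [hi, OrderDual.toDual_ofDual, ← h]; rfl⟩

lemma not_hi_le_lo {m n : ℕ} : ¬ hi m ≤ lo n := by
  intro h
  have h2 := le_antisymm h (lo_le_hi (m := n) (n := m))
  have h3 := congrArg ofLex h2
  simp at h3

/-- a self-map of `C` given by a self-map of the left copy -/
def ext (f : ℕ → ℕ) (x : C) : C := match ofLex x with
  | Sum.inl n => lo (f n)
  | Sum.inr _ => x

@[simp] lemma ext_lo (f : ℕ → ℕ) (n : ℕ) : ext f (lo n) = lo (f n) := rfl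

@[simp] lemma ext_hi (f : ℕ → ℕ) (n : ℕ) : ext f (hi n) = hi n := rfl

/-- the retraction given by an order-preserving idempotent self-map of the left copy -/
def retr (f : ℕ → ℕ) (hf : Monotone f) (hf2 : ∀ n, f (f n) = f n) : Retr C :=
  ⟨ext f, by
    intro x y hxy
    rcases cases x with ⟨m, rfl⟩ | ⟨m, rfl⟩ <;> rcases cases y with ⟨n, rfl⟩ | ⟨n, rfl⟩
    · rw [ext_lo, ext_lo, lo_le_lo]
      exact hf (lo_le_lo.1 hxy)
    · rw [ext_lo, ext_hi]
      exact lo_le_hi
    · exact absurd hxy not_hi_le_lo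
    · exact hxy, by
    intro x
    rcases cases x with ⟨m, rfl⟩ | ⟨m, rfl⟩
    · rw [ext_lo, ext_lo, hf2]
    · rfl⟩

/-- There are a lattice `L` with a least and a greatest element and two retractions of `L` that
have no least upper bound in the poset of the retractions of `L`. -/
theorem result : ∃ (L : Type) (_ : Lattice L) (_ : BoundedOrder L) (r s : Retr L),
    ¬ ∃ t, IsLUB {r, s} t := by
  refine ⟨C, inferInstance, ?_, retr (fun n => 2 * ((n + 1) / 2)) ?_ ?_,
    retr (fun n => 2 * (n / 2) + 1) ?_ ?_, ?_⟩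
  · exact
      { bot := lo 0
        bot_le := by
          intro x
          rcases cases x with ⟨m, rfl⟩ | ⟨m, rfl⟩
          · exact lo_le_lo.2 (Nat.zero_le m)
          · exact lo_le_hi
        top := hi 0
        le_top := by
          intro x
          rcases cases x with ⟨m, rfl⟩ | ⟨m, rfl⟩
          · exact lo_le_hi
          · exact hi_le_hi.2 (Nat.zero_le m) }
  · intro m n hmn
    change 2 * ((m + 1) / 2) ≤ 2 * ((n + 1) / 2)
    omega
  · intro n
    change 2 * ((2 * ((n + 1) / 2) + 1) / 2) = 2 * ((n + 1) / 2)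
    omega
  · intro m n hmn
    change 2 * (m / 2) + 1 ≤ 2 * (n / 2) + 1
    omega
  · intro n
    change 2 * ((2 * (n / 2) + 1) / 2) + 1 = 2 * (n / 2) + 1
    omega
  · rintro ⟨t, ht⟩
    -- `t` sends the left copy into the right copy
    have h1 : ∀ n m, t.1 (lo n) ≠ lo m := by
      intro n m h
      have h2 : t.1 (lo m) = lo m := by rw [← h]; exact t.2.2 _
      have h3 : lo (2 * ((m + 1) / 2)) ≤ t.1 (lo m) := ht.1 (Set.mem_insert _ _) (lo m)
      have h4 : lo (2 * (m / 2) + 1) ≤ t.1 (lo m) :=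
        ht.1 (Set.mem_insert_of_mem _ (Set.mem_singleton _)) (lo m)
      rw [h2, lo_le_lo] at h3 h4
      omega
    obtain ⟨b, hb⟩ : ∃ b, t.1 (lo 0) = hi b := by
      rcases cases (t.1 (lo 0)) with ⟨m, h⟩ | h
      · exact absurd h (h1 0 m)
      · exact h
    let q : Retr C := ⟨fun x => x ⊔ hi (b + 1), fun x y hxy => sup_le_sup_right hxy _, fun x => by
      change (x ⊔ hi (b + 1)) ⊔ hi (b + 1) = x ⊔ hi (b + 1)
      rw [sup_assoc, sup_idem]⟩
    have hq : q ∈ upperBounds {retr (fun n => 2 * ((n + 1) / 2)) (by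
        intro m n hmn
        change 2 * ((m + 1) / 2) ≤ 2 * ((n + 1) / 2)
        omega) (by
        intro n
        change 2 * ((2 * ((n + 1) / 2) + 1) / 2) = 2 * ((n + 1) / 2)
        omega), retr (fun n => 2 * (n / 2) + 1) (by
        intro m n hmn
        change 2 * (m / 2) + 1 ≤ 2 * (n / 2) + 1
        omega) (by
        intro n
        change 2 * ((2 * (n / 2) + 1) / 2) + 1 = 2 * (n / 2) + 1
        omega)} := by
      have key : ∀ f hf hf2, retr f hf hf2 ≤ q := by
        intro f hf hf2 x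
        rcases cases x with ⟨m, rfl⟩ | ⟨m, rfl⟩
        · exact le_trans lo_le_hi le_sup_right
        · exact le_sup_left
      intro p hp
      rcases hp with rfl | hp
      · exact key _ _ _
      · rw [Set.mem_singleton_iff] at hp
        rw [hp]
        exact key _ _ _
    have h5 := ht.2 hq (lo 0)
    have h6 : q.1 (lo 0) = hi (b + 1) := sup_eq_right.2 lo_le_hi
    change t.1 (lo 0) ≤ q.1 (lo 0) at h5
    rw [hb, h6, hi_le_hi] at h5
    omega

end Pool.Agent.Results.MP_31821e_co.BoundedChain
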